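import Pool.Agent.Helper33.TL.B5

set_option autoImplicit false

namespace Pool.Agent.Helper4.Kept.FamilyLaw

open Pool.Agent.Helper4.FS Pool.Agent.Helper33.TL

/-- Laws of the product `P(n)` of `N_p / p` over the primes `p ≤ n` not dividing the discriminant,
for the members of families of elliptic curves, given by Weierstrass equations `E` with
coefficients in `ℤ[t₁, …, tᵣ]` and discriminant not zero. Let `ctr E n` be `log log n` minus the sum
over the primes `p ≤ n` of the means, over the parameters modulo `p`, of `a_p / p` and of
`(a_p / p) ^ 2 / 2`, and let `cov E E' n` be the sum over `p ≤ n` of the covariances of the numbers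
`a_p / p` of `E` and `E'`.

* `OrderLaw`: 100 per cent of the members are nonsingular and have
  `|log P(n) - ctr n| ≤ ε log log n` for all `n ≥ n₀` up to a power of the sides of the box of the
  parameters.
* `JointLaw`: for finitely many families with the same parameters, every linear combination of the
  `log P_i(n_i) - ctr_i(n_i)`, `n_i ≤ n`, is asymptotically normal, with the variance `U` given by
  the `cov`, if `U` is at least `c log log n`.
* `TailLaw`: it is at least `b U`, `b ≥ 0`, for a proportion `exp (-(b ^ 2 / 2 + o(1)) U)` of the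
  members.
* `Exponent`: `ctr n = (k + 1 / 2) log log n + O(1)` and `cov E E n = log log n + O(1)`, for the
  congruent number curves and all the curves `y² = x³ + a x + b` (`k = 0`), for the congruent number
  curves of the areas of right triangles (`k = 1`) and for the cubics through `k ≤ 6` points, which
  are independent for 100 per cent of the parameters (`IndepLaw`).
* `SieveLaw`: the curves `y² = x³ + a x + b`, `|a| ≤ A`, `|b| ≤ B`, with `P(n) ≥ (log n) ^ t` are a
  proportion `(log n) ^ (-(t - 1 / 2) ^ 2 / 2 + o(1))` of the curves, if `1 / 2 ≤ t`, but they have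
  a proportion `1 - o(1)`, if `t < 3 / 2`, and `(log n) ^ (-(t - 3 / 2) ^ 2 / 2 + o(1))`, if
  `3 / 2 ≤ t`, of the integral points `(x, y)`, `|x| ≤ X`, `|y| ≤ Y`, if `B ≥ X ^ 3 + A X + Y ^ 2`.

The first three laws are uniform in the boxes (sides and centre) and hold in residue classes. -/
theorem result :
    (∀ (r : ℕ) (E : Fam r), E.Δ ≠ 0 → OrderLaw E) ∧ (∀ r : ℕ, JointLaw r ∧ TailLaw r) ∧
    Exponent congF 0 ∧ Exponent shortF 0 ∧ Exponent triF 1 ∧
    (∀ (k : ℕ) (hk : k ≤ 6), Exponent (ptsF k) k ∧ IndepLaw k hk) ∧ SieveLaw :=
  ⟨fun r E hE => (main.1 r E hE).1, fun r => ⟨main.2.1 r, tailLaw r⟩, main.2.2.1, main.2.2.2.1,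
    main.2.2.2.2.1, main.2.2.2.2.2, sieveLaw⟩

end Pool.Agent.Helper4.Kept.FamilyLaw
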