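import Pool.Agent.Helper49.MIX.FinalA
import Pool.Agent.Helper4.SBQ.Defs

/-!
# Potential density of fibre products of Severi-Brauer and quadric bundles over affine space
-/

set_option autoImplicit false

namespace Pool.Agent.Helper4.Kept.SeveriBrauerQuadricBundles

open AlgebraicGeometry CategoryTheory Pool.Agent.Helper15 Pool.Agent.Helper65.CB
open Pool.Agent.Helper49.QI Pool.Agent.Helper10.BR Pool.Agent.Helper4.SBQ

theorem result (K : Type) [Field K] [NumberField K] (n r s : ℕ) (N : Fin r → ℕ)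
    (q : ∀ i : Fin r, Matrix (Fin (N i)) (Fin (N i)) (MvPolynomial (Fin n) K))
    (hq : ∀ i, (q i).IsSymm)
    (hr : ∀ i, ∃ f g : Fin 3 → Fin (N i), ((q i).submatrix f g).det ≠ 0)
    (A : Fin s → Type) [∀ j, Ring (A j)] [∀ j, Algebra (MvPolynomial (Fin n) K) (A j)]
    [∀ j, Module.Finite (MvPolynomial (Fin n) K) (A j)] (m : Fin s → ℕ)
    (hA : ∀ j, GenCSA (MvPolynomial (Fin n) K) (A j) (m j))
    (h : ∀ P : MvPolynomial (Fin n) (AlgebraicClosure K), Irreducible P →
      (∀ k : Fin n, (∀ l < k, P.degreeOf l = 0) → P.degreeOf k ≤ 3) ∨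
      ((∀ i, SplitQ ((q i).map (MvPolynomial.map (algebraMap K (AlgebraicClosure K)))) P) ∧
        ∀ j, UnrAt (K := K) P (A j))) :
    ∃ d : MvPolynomial (Fin n) K, d ≠ 0 ∧ ∀ (X : Scheme.{0}) (t : X ⟶ Spec (CommRingCat.of K)),
      DominatedOver K X (V q A m d) t (toSpec q A m d K) → PotentiallyDense K X t :=
  Pool.Agent.Helper49.MIX.final_A K n r s N q hq hr A m (fun j => (hA j).1) (fun j => (hA j).2.1)
    (fun j => (hA j).2.2) h

end Pool.Agent.Helper4.Kept.SeveriBrauerQuadricBundles
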